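import Pool.Agent.Q264.HM.Stm

set_option autoImplicit false

namespace Pool.Agent.Q264.HM

theorem primrec_pow (a : ℕ) : Primrec fun n : ℕ => a ^ n := by
  have h : Primrec (Nat.rec 1 (fun _ ih => ih * a) : ℕ → ℕ) :=
    Primrec.nat_rec₁ (f := fun _ ih => ih * a) 1
      (Primrec.nat_mul.comp Primrec.snd (Primrec.const a)).to₂
  refine h.of_eq fun n => ?_
  induction n with
  | zero => simp
  | succ n ih => simp only [ih, pow_succ]

theorem t_BOUND : S_BOUND := by
  intro X Y _ _ N n R
  have h1 : Primrec fun L : List (List X × List Y) => (L.flatMap Prod.fst).length :=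
    Primrec.list_length.comp (Primrec.list_flatMap Primrec.id (Primrec.fst.comp Primrec.snd).to₂)
  have h2 : Primrec fun L : List (List X × List Y) => 2 * (R * (L.flatMap Prod.fst).length + 1) :=
    Primrec.nat_mul.comp (Primrec.const 2)
      (Primrec.nat_add.comp (Primrec.nat_mul.comp (Primrec.const R) h1) (Primrec.const 1))
  exact Primrec.nat_mul.comp (Primrec.const 3) ((primrec_pow 2).comp
    (Primrec.nat_mul.comp (Primrec.const 4)
      (Primrec.nat_mul.comp (Primrec.const (N * N)) ((primrec_pow (2 * n + 1)).comp h2))))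

end Pool.Agent.Q264.HM
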