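import Mathlib

set_option autoImplicit false

namespace Pool.Agent.Q264.HM

/-- The value in the group `G` of a word in the generators `y i` (letter `(i, true)`) and their
inverses (letter `(i, false)`). -/
def val {ι G : Type} [Group G] (y : ι → G) (w : List (ι × Bool)) : G :=
  (w.map fun p => if p.2 then y p.1 else (y p.1)⁻¹).prod

/-- Some monoid homomorphism from the submonoid generated by the first components of the members of
`L` to `G` maps `p.1` to `p.2` for all members `p` of `L`. -/
def Ext {H G : Type} [Group H] [Group G] (L : List (H × G)) : Prop :=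
  ∃ Φ : Submonoid.closure {h : H | ∃ p ∈ L, p.1 = h} →* G,
    ∀ p (hp : p ∈ L), Φ ⟨p.1, Submonoid.subset_closure ⟨p, hp, rfl⟩⟩ = p.2

/-- The word problem of the group `G` for the generators `y` is decidable. -/
def DecidableWP {ι G : Type} [Primcodable ι] [Group G] (y : ι → G) : Prop :=
  ComputablePred fun w : List (ι × Bool) => val y w = 1

/-- The distance in the tree of the free group. -/
def dd {n : ℕ} (a b : FreeGroup (Fin n)) : ℕ := (a⁻¹ * b).norm

/-- A free subgroup (the image of `ι`) of finite index of `H` with right coset representatives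
`σ c`; every `h` is `ι (f h) * σ (κ h)`. -/
structure Cosets (H : Type) [Group H] (n N : ℕ) where
  ι : FreeGroup (Fin n) →* H
  inj : Function.Injective ι
  σ : Fin N → H
  κ : H → Fin N
  f : H → FreeGroup (Fin n)
  eq : ∀ h, h = ι (f h) * σ (κ h)
  f_mul : ∀ g h, f (ι g * h) = g * f h
  κ_mul : ∀ g h, κ (ι g * h) = κ h
  κσ : ∀ c, κ (σ c) = c
  fσ : ∀ c, f (σ c) = 1

/-- All words of length at most `n` with letters in `L`. -/
def words {γ : Type} (L : List γ) : ℕ → List (List γ)
  | 0 => [[]]
  | n + 1 => [] :: (words L n).flatMap fun w => L.map fun p => p :: w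

end Pool.Agent.Q264.HM
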