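import Pool.Agent.Q264.HM.Def

set_option autoImplicit false

namespace Pool.Agent.Q264.HM

/-- Four-point condition for the tree of a free group. PROOF. Left invariance of `dd`: we may assume
`d = 1` (replace `a, b, c, d` by `d⁻¹ a, d⁻¹ b, d⁻¹ c, 1`). Let `cp` be the length of the longest
common prefix of two lists, defined by recursion on the first list. For reduced lists one has
`norm (x⁻¹ * y) = norm x + norm y - 2 * cp x.toWord y.toWord`: with `x.toWord = p ++ x'`,
`y.toWord = p ++ y'` and different heads of `x'`, `y'` (or one of them empty), the list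
`invRev x' ++ y'` is reduced and represents `x⁻¹ * y`. Clearly `cp l₁ l₃ ≥ min (cp l₁ l₂) (cp l₂ l₃)`
(induction). The claim for `d = 1` is exactly this ultrametric inequality. -/
def S_FOUR : Prop := ∀ (n : ℕ) (a b c d : FreeGroup (Fin n)),
  dd a b + dd c d ≤ max (dd a c + dd b d) (dd a d + dd b c)

/-- PROOF (`hFOUR : S_FOUR`; `dd` is symmetric, satisfies the triangle inequality `dd a c ≤ dd a b +
dd b c` and `dd a a = 0`). Write `g = f N`. If `dd (f 1) g ≤ 2 R` take `k = 1`. Otherwise let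
`P k` say `2 R + dd (f k) (f 1) ≤ dd g (f k) + dd g (f 1)`. `P 1` holds, `P N` fails. So there is
`1 ≤ k < N` with `P k` and not `P (k+1)`. Four points `f 1, f (k+1), g, f k`:
`dd (f 1) (f (k+1)) + dd g (f k) ≤ max (dd (f 1) g + dd (f (k+1)) (f k)) (dd (f 1) (f k) + dd (f (k+1)) g)`.
The second alternative contradicts `P k` and not `P (k+1)`. The first one gives
`dd g (f (k+1)) + dd g (f k) < 3 R`, and with `dd g (f k) ≤ dd g (f (k+1)) + R` we get
`dd g (f k) < 2 R`. Four points `f 0, f k, f 1, g`: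
`dd (f 0) (f k) + dd (f 1) g ≤ max (dd (f 0) (f 1) + dd (f k) g) (dd (f 0) g + dd (f k) (f 1))`,
and each alternative gives `dd (f 0) (f k) ≤ 2 R` (the second one with `P k`). -/
def S_SPLIT : Prop := ∀ (n R N : ℕ) (f : ℕ → FreeGroup (Fin n)), 1 ≤ R → 2 ≤ N →
  (∀ k < N, dd (f k) (f (k + 1)) ≤ R) → dd (f 0) (f N) ≤ 2 * R →
  ∃ k, 0 < k ∧ k < N ∧ dd (f 0) (f k) ≤ 2 * R ∧ dd (f k) (f N) ≤ 2 * R

/-- PROOF. For `N` with `∃ m, W N m` let `μ N` be the least such `m`. Claim:
`μ N ≤ 2 ^ #{N' : W N' nonempty and μ N' < μ N}`, by strong induction on `μ N`. If `μ N ≤ 1` this is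
clear. Otherwise split `m = μ N = m₁ + m₂`; `N₁`, `N₂` have `μ N₁ ≤ m₁ < μ N` and `μ N₂ ≤ m₂ < μ N`,
and `W N (μ N₁ + μ N₂)`, so `μ N ≤ μ N₁ + μ N₂ ≤ 2 μ N*` where `N*` is one of `N₁, N₂` with the larger
`μ`. The set for `N*` is contained in the set for `N` and does not contain `N*`, which is in the set
for `N`. -/
def S_DOUB : Prop := ∀ (S : Type) [Fintype S] (W : S → ℕ → Prop),
  (∀ N m, 2 ≤ m → W N m → ∃ N₁ N₂ m₁ m₂, 0 < m₁ ∧ 0 < m₂ ∧ m₁ + m₂ = m ∧ W N₁ m₁ ∧ W N₂ m₂ ∧
    ∀ a b, W N₁ a → W N₂ b → W N (a + b)) →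
  ∀ N m, W N m → ∃ m' ≤ 2 ^ Fintype.card S, W N m'

/-- PROOF. For `h : H` let `q h = ((h⁻¹ : H) : H ⧸ F)` (left coset of the inverse), so
`q (g * h) = q h` for `g ∈ F`. Let `r : H ⧸ F → H` be `Quotient.out`; `h * r (q h) ∈ F`. Identify
`H ⧸ F` with `Fin N` (`Finite.equivFin` or so), put `κ h = q h`, `σ c = (r c)⁻¹`,
`f h = e ⟨h * r (q h), _⟩`, `ι g = e.symm g`. -/
def S_COSET : Prop := ∀ (H : Type) [Group H] (n : ℕ) (F : Subgroup H) [F.FiniteIndex]
  (_ : F ≃* FreeGroup (Fin n)), ∃ N : ℕ, Nonempty (Cosets H n N)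

/-- PROOF (`hSPLIT : S_SPLIT`). Let `B` be the set of all `(σ c)⁻¹ * ι (FreeGroup.mk w) * σ c'` with
`c, c' : Fin N` and `w` a word of length at most `2 R` over `Fin n × Bool` (words of length at most
`2 R` are images of functions `Fin (2 R) → Option (Fin n × Bool)`, for instance by `List.reduceOption`
of `List.ofFn`, hence at most `(2 n + 1) ^ (2 R)`); use `Finset.card_image_le`. One has
`h ∈ B ↔ ∃ c, (f (σ c * h)).norm ≤ 2 R`: (if `σ c * h = ι u * σ c'` then `f (σ c * h) = u`).
`1 ∈ B` (`N > 0` since `κ 1 : Fin N`). Let `val s w ∈ B` with `c`, `w` of length `m ≥ 2`. Put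
`p k = val s (w.take k)` and `F k = f (σ c * p k)`. Then `F 0 = 1`, `dd (F 0) (F m) ≤ 2 R`; with
`c_k = κ (σ c * p k)` one has `σ c * p (k+1) = ι (F k) * (σ c_k * (letter))`, so
`F (k+1) = F k * f (σ c_k * letter)` and `dd (F k) (F (k+1)) ≤ R`. `S_SPLIT` gives `0 < k < m`. Then
`w₁ = w.take k`, `w₂ = w.drop k`: `(f (σ c * val s w₁)).norm = dd (F 0) (F k) ≤ 2 R`, and
`σ c_k * val s w₂ = ι (F k)⁻¹ * (σ c * val s w)`, so
`(f (σ c_k * val s w₂)).norm = dd (F k) (F m) ≤ 2 R`. -/
def S_BALL : Prop := ∀ (H : Type) [Group H] (n N : ℕ) (T : Cosets H n N) (R : ℕ) (I : Type)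
  (s : I → H), 1 ≤ R → (∀ c i, (T.f (T.σ c * s i)).norm ≤ R) →
  (∀ c i, (T.f (T.σ c * (s i)⁻¹)).norm ≤ R) →
  ∃ B : Finset H, B.card ≤ N * N * (2 * n + 1) ^ (2 * R) ∧ 1 ∈ B ∧
    ∀ w : List (I × Bool), 2 ≤ w.length → val s w ∈ B →
      ∃ w₁ w₂, w = w₁ ++ w₂ ∧ w₁ ≠ [] ∧ w₂ ≠ [] ∧ val s w₁ ∈ B ∧ val s w₂ ∈ B

/-- PROOF (`hDOUB : S_DOUB`). Four types of words over `I × Bool`: type 0: all letters `true`
(P); type 1: all letters `false` (N); type 2 (PN): the Booleans are nonincreasing
(`(w.map Prod.snd).Pairwise (· ≥ ·)`, i.e. `true`s before `false`s); type 3 (NP): nondecreasing.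
If `w = w₁ ++ w₂` has type 0 (1), so have `w₁, w₂`; if it has type 2 then `w₁` has type 0 and `w₂` type
2, or `w₁` type 2 and `w₂` type 1; if it has type 3 then `w₁` type 1 and `w₂` type 3 or `w₁` type 3 and
`w₂` type 0; in all cases every concatenation of words of these two types has the type of `w`. So
`S_DOUB` with `S = {h // h ∈ B} × Fin 4`, `W (h, τ) m = ∃ w` of type `τ`, length `m` and value `h`,
gives (BD): for `h ∈ B`, if some word of type `τ` has value `h` then some such word has length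
at most `K₀ = 2 ^ (4 * B.card)`. Short relations (SR): if `a` has type 2, `b` type 3,
`a.length ≤ 2 K₀`, `b.length ≤ K₀`, `val s a = val s b`, then `val g a = val g b`: write
`a = u v⁻¹`, `b = x⁻¹ y` with positive `u, v, x, y`, then `x u = y v` is a relation between positive
words of length at most `3 K₀ ≤ K`, so the hypothesis applies. CLAIM: if `w` has type 2,
`val s w ∈ B`, `b` has type 3, `b.length ≤ K₀`, `val s b = val s w`, then `val g w = val g b`. Strong
induction on `w.length`. Length at most 1: (SR). Otherwise `w = w₁ ++ w₂` by the splitting property.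
Case (i): `w₁` type 0, `w₂` type 2. `w₁` is also of type 3, and `w₁⁻¹ b` (reverse and flip `w₁`) is of
type 3 with the value of `w₂`. By (BD) take type 3 words `b₁, b₂` of length at most `K₀` with the
values of `w₁, w₂`, and a type 0 word `a₁` and a type 2 word `a₂` of length at most `K₀` with the
values of `w₁, w₂`. By induction `val g w₁ = val g b₁`, `val g w₂ = val g b₂`; by (SR)
`val g a₁ = val g b₁`, `val g a₂ = val g b₂` and `val g (a₁ ++ a₂) = val g b`. Case (ii): `w₁` type 2,
`w₂` type 1: symmetric (`b w₂⁻¹` is of type 3 with the value of `w₁`; `a₁` of type 2, `a₂` of type 1).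
Finally for positive `u, v` with equal products apply the claim to `w = u v⁻¹`, of type 2 and value
`1 ∈ B`, and `b = []`. -/
def S_MAIN : Prop := ∀ (H G : Type) [Group H] [Group G] (I : Type) (s : I → H) (g : I → G)
  (B : Finset H) (K : ℕ), 1 ∈ B →
  (∀ w : List (I × Bool), 2 ≤ w.length → val s w ∈ B →
      ∃ w₁ w₂, w = w₁ ++ w₂ ∧ w₁ ≠ [] ∧ w₂ ≠ [] ∧ val s w₁ ∈ B ∧ val s w₂ ∈ B) →
  3 * 2 ^ (4 * B.card) ≤ K →
  (∀ u v : List I, u.length ≤ K → v.length ≤ K → (u.map s).prod = (v.map s).prod →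
    (u.map g).prod = (v.map g).prod) →
  ∀ u v : List I, (u.map s).prod = (v.map s).prod → (u.map g).prod = (v.map g).prod

/-- PROOF. (→) `Φ` maps `(u.map Prod.fst).prod` to `(u.map Prod.snd).prod` (induction on `u`). (←) Every
element `z` of the closure is `(u.map Prod.fst).prod` for some list `u` of members of `L`
(`Submonoid.exists_list_of_mem_closure` or closure induction); put `Φ z = (u.map Prod.snd).prod` for a
chosen `u`. -/
def S_HOM : Prop := ∀ (H G : Type) [Group H] [Group G] (L : List (H × G)),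
  Ext L ↔ ∀ u v : List (H × G), (∀ p ∈ u, p ∈ L) → (∀ p ∈ v, p ∈ L) →
    (u.map Prod.fst).prod = (v.map Prod.fst).prod → (u.map Prod.snd).prod = (v.map Prod.snd).prod

/-- PROOF. Put `c₀ = κ 1`. For `c : Fin N` and a letter `y : Fin k × Bool` with value `v y`, let
`A c y = (f (σ c * v y)).toWord`, `δ c y = κ (σ c * v y)`. These are functions on a finite type, hence
primitive recursive (`Primrec.dom_finite`). For a word `w` put
`run w = w.foldl (fun q y => (δ q.1 y, q.2 ++ A q.1 y)) (c₀, [])`. By induction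
`f (σ c₀ * val x w) = FreeGroup.mk (run w).2` and `κ (σ c₀ * val x w) = (run w).1` (generalise the
start). So `val x w = 1 ↔ (run w).1 = c₀ ∧ FreeGroup.reduce (run w).2 = []`
(`σ c₀ * h = ι (f ..) * σ (κ ..)`). `run` is primitive recursive (`Primrec.list_foldl`), `reduce` too
(`FreeGroup.reduce` is a `List.rec`, i.e. a `foldr`, `Primrec.list_foldr`, `Primrec.list_casesOn`). -/
def S_WPH : Prop := ∀ (H : Type) [Group H] (n N k : ℕ) (_ : Cosets H n N) (x : Fin k → H),
  DecidableWP x

/-- PROOF. `(f a).all (t a)` is `Nat.rec true (fun i ih => ih && (match (f a)[i]? with | none => true |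
some b => t a b)) (f a).length`; `Computable.nat_rec`, `Computable.option_casesOn`. -/
def S_ALL : Prop := ∀ (α β : Type) [Primcodable α] [Primcodable β] (f : α → List β)
  (t : α → β → Bool), Computable f → Computable₂ t → Computable fun a => (f a).all (t a)

/-- PROOF. Induction on `n`; `Primrec.nat_rec`, `Primrec.list_flatMap`, `Primrec.list_map`. -/
def S_WORDS : Prop := (∀ (γ : Type) (L : List γ) (n : ℕ) (u : List γ),
    u ∈ words L n ↔ u.length ≤ n ∧ ∀ p ∈ u, p ∈ L) ∧
  ∀ (γ : Type) [Primcodable γ], Primrec₂ fun (L : List γ) (n : ℕ) => words L n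

/-- PROOF. `val y u = val y v ↔ val y (u ++ v.reverse.map (fun p => (p.1, !p.2))) = 1`; the map on
words is primitive recursive. -/
def S_EQ : Prop := ∀ (ι G : Type) [Primcodable ι] [Group G] (y : ι → G), DecidableWP y →
  ∃ t : List (ι × Bool) → List (ι × Bool) → Bool, Computable₂ t ∧
    ∀ u v, t u v = true ↔ val y u = val y v

/-- PROOF (`hALL : S_ALL`, `hWORDS : S_WORDS`). `Primrec.list_flatMap`, twice `hALL` (for the inner one
take `α` to be the pairs `(L, u)`). -/
def S_CHECK : Prop := ∀ (X Y : Type) [Primcodable X] [Primcodable Y] (tX : List X → List X → Bool)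
  (tY : List Y → List Y → Bool) (K : List (List X × List Y) → ℕ), Computable₂ tX → Computable₂ tY →
  Computable K → Computable fun L : List (List X × List Y) =>
    (words L (K L)).all fun u => (words L (K L)).all fun v =>
      !(tX (u.flatMap Prod.fst) (v.flatMap Prod.fst)) || tY (u.flatMap Prod.snd) (v.flatMap Prod.snd)

/-- PROOF. Primitive recursive: products, powers (`Nat.pow` is primitive recursive: `Nat.Primrec.pow`
or `Primrec.nat_rec`), `(L.flatMap Prod.fst).length` (`Primrec.list_flatMap`). -/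
def S_BOUND : Prop := ∀ (X Y : Type) [Primcodable X] [Primcodable Y] (N n R : ℕ),
  Primrec fun L : List (List X × List Y) =>
    3 * 2 ^ (4 * (N * N * (2 * n + 1) ^ (2 * (R * (L.flatMap Prod.fst).length + 1))))

/-- PROOF. `H` is finitely generated, so `F` is (Mathlib: `Subgroup.fg_of_index_ne_zero` or similar).
`F` is isomorphic to `FreeGroup X` for some type `X` (`IsFreeGroup`); `X` is finite: `FreeGroup X` maps
onto the additive group `X →₀ ZMod 2` (or `FreeGroup X → (X → ...)`, see also `FreeAbelianGroup`,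
`Module.Finite`), which is then a finitely generated abelian group of exponent 2, hence finite; or: the
generators involve finitely many letters `X₀`, and the hom killing exactly the letters of `X₀` is
trivial. -/
def S_FING : Prop := ∀ (H : Type) [Group H] (k : ℕ) (x : Fin k → H),
  Subgroup.closure (Set.range x) = ⊤ → ∀ (F : Subgroup H) [F.FiniteIndex] [IsFreeGroup F],
  ∃ n : ℕ, Nonempty (F ≃* FreeGroup (Fin n))

/-- PROOF. Induction on `w`, for all `c`: with `v` the value of the first letter,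
`σ c * (v * z) = ι (f (σ c * v)) * (σ (κ (σ c * v)) * z)`, so
`f (σ c * (v * z)) = f (σ c * v) * f (σ c' * z)`; `FreeGroup.norm_mul_le`. Take for `R` the maximum
(or sum) of the norms of all `f (σ c * x i)`, `f (σ c * (x i)⁻¹)`. For the inverse:
`(val x w)⁻¹` is the value of the reversed word with flipped signs, of the same length. -/
def S_JUMP : Prop := ∀ (H : Type) [Group H] (n N k : ℕ) (T : Cosets H n N) (x : Fin k → H),
  ∃ R : ℕ, ∀ (w : List (Fin k × Bool)) (c : Fin N),
    (T.f (T.σ c * val x w)).norm ≤ R * w.length ∧ (T.f (T.σ c * (val x w)⁻¹)).norm ≤ R * w.length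

end Pool.Agent.Q264.HM
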