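import Pool.Agent.Q264.HM.Stm

set_option autoImplicit false

namespace Pool.Agent.Q264.HM

theorem val_append {ι G : Type} [Group G] (y : ι → G) (u v : List (ι × Bool)) :
    val y (u ++ v) = val y u * val y v := by
  simp [val]

theorem val_flatMap {ι G γ : Type} [Group G] (y : ι → G) (f : γ → List (ι × Bool))
    (u : List γ) : val y (u.flatMap f) = (u.map fun p => val y (f p)).prod := by
  induction u with
  | nil => simp [val]
  | cons a u ih => simp [val_append, ih]

theorem lift_list {α β : Type} (φ : α → β) (u : List β) (h : ∀ b ∈ u, ∃ a, φ a = b) :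
    ∃ u₀ : List α, u₀.map φ = u := by
  induction u with
  | nil => exact ⟨[], rfl⟩
  | cons b u ih =>
      obtain ⟨a, ha⟩ := h b (by simp)
      obtain ⟨u₀, hu⟩ := ih fun b hb => h b (by simp [hb])
      exact ⟨a :: u₀, by simp [ha, hu]⟩

theorem val_single {H I : Type} [Group H] (s : I → H) (i : I) (b : Bool) :
    val s [(i, b)] = if b then s i else (s i)⁻¹ := by
  simp [val]

/-- The problem: `L` is a list of pairs of words, and some homomorphism from the submonoid of `H`
generated by the values of the first components maps the value of `p.1` to the value of `p.2`. -/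
def Extends {H G ι κ : Type} [Group H] [Group G] (x : ι → H) (y : κ → G)
    (L : List (List (ι × Bool) × List (κ × Bool))) : Prop :=
  Ext (L.map fun p => (val x p.1, val y p.2))

theorem top (hCOSET : S_COSET) (hBALL : S_BALL) (hMAIN : S_MAIN) (hHOM : S_HOM) (hWPH : S_WPH)
    (hWORDS : S_WORDS) (hEQ : S_EQ) (hCHECK : S_CHECK) (hBOUND : S_BOUND) (hFING : S_FING)
    (hJUMP : S_JUMP) (H : Type) [Group H] (k : ℕ) (x : Fin k → H)
    (hx : Subgroup.closure (Set.range x) = ⊤) (F : Subgroup H) [F.FiniteIndex] [IsFreeGroup F]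
    (G : Type) [Group G] (α : Type) [Primcodable α] (y : α → G) (hG : DecidableWP y) :
    ComputablePred (Extends x y) := by
  classical
  obtain ⟨n, ⟨e⟩⟩ := hFING H k x hx F
  obtain ⟨N, ⟨T⟩⟩ := hCOSET H n F e
  obtain ⟨R, hR⟩ := hJUMP H n N k T x
  have wpH : DecidableWP x := hWPH H n N k T x
  obtain ⟨tX, tXc, tXs⟩ := hEQ (Fin k) H x wpH
  obtain ⟨tY, tYc, tYs⟩ := hEQ α G y hG
  have hc := hCHECK (Fin k × Bool) (α × Bool) tX tY
    (fun L => 3 * 2 ^ (4 * (N * N * (2 * n + 1) ^ (2 * (R * (L.flatMap Prod.fst).length + 1)))))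
    tXc tYc (hBOUND (Fin k × Bool) (α × Bool) N n R).to_comp
  refine ComputablePred.computable_iff.2 ⟨_, hc, ?_⟩
  funext L
  set K := 3 * 2 ^ (4 * (N * N * (2 * n + 1) ^ (2 * (R * (L.flatMap Prod.fst).length + 1))))
    with hK
  apply propext
  let s : {p // p ∈ L} → H := fun p => val x p.1.1
  let g : {p // p ∈ L} → G := fun p => val y p.1.2
  have e1 : Extends x y L ↔ ∀ u v : List {p // p ∈ L}, (u.map s).prod = (v.map s).prod →
      (u.map g).prod = (v.map g).prod := by
    unfold Extends
    rw [hHOM H G]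
    constructor
    · intro h u v huv
      have := h (u.map fun p => (val x p.1.1, val y p.1.2))
        (v.map fun p => (val x p.1.1, val y p.1.2))
        (by
          intro p hp
          obtain ⟨q, hq, rfl⟩ := List.mem_map.1 hp
          exact List.mem_map.2 ⟨q.1, q.2, rfl⟩)
        (by
          intro p hp
          obtain ⟨q, hq, rfl⟩ := List.mem_map.1 hp
          exact List.mem_map.2 ⟨q.1, q.2, rfl⟩)
      simp only [List.map_map] at this
      exact this huv
    · intro h u v hu hv huv
      obtain ⟨u₀, hu₀⟩ := lift_list (fun p : {p // p ∈ L} => (val x p.1.1, val y p.1.2)) u (by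
        intro b hb
        obtain ⟨q, hq, rfl⟩ := List.mem_map.1 (hu b hb)
        exact ⟨⟨q, hq⟩, rfl⟩)
      obtain ⟨v₀, hv₀⟩ := lift_list (fun p : {p // p ∈ L} => (val x p.1.1, val y p.1.2)) v (by
        intro b hb
        obtain ⟨q, hq, rfl⟩ := List.mem_map.1 (hv b hb)
        exact ⟨⟨q, hq⟩, rfl⟩)
      subst hu₀ hv₀
      simp only [List.map_map] at huv ⊢
      exact h u₀ v₀ huv
  rw [e1]
  -- the bound
  have hlen : ∀ p : {p // p ∈ L}, p.1.1.length ≤ (L.flatMap Prod.fst).length := by
    rintro ⟨p, hp⟩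
    rw [List.length_flatMap]
    exact List.single_le_sum (by simp) _ (List.mem_map.2 ⟨p, hp, rfl⟩)
  obtain ⟨B, hB1, hB2, hB3⟩ := hBALL H n N T (R * (L.flatMap Prod.fst).length + 1)
    {p // p ∈ L} s (by omega)
    (fun c i => ((hR i.1.1 c).1.trans (Nat.mul_le_mul_left R (hlen i))).trans (by omega))
    (fun c i => ((hR i.1.1 c).2.trans (Nat.mul_le_mul_left R (hlen i))).trans (by omega))
  have hBK : 3 * 2 ^ (4 * B.card) ≤ K := by
    rw [hK]
    gcongr
    norm_num
  constructor
  · intro h
    rw [List.all_eq_true]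
    intro u hu
    rw [List.all_eq_true]
    intro v hv
    obtain ⟨-, hu⟩ := (hWORDS.1 _ _ _ _).1 hu
    obtain ⟨-, hv⟩ := (hWORDS.1 _ _ _ _).1 hv
    obtain ⟨u₀, hu₀⟩ := lift_list (fun p : {p // p ∈ L} => p.1) u fun b hb => ⟨⟨b, hu b hb⟩, rfl⟩
    obtain ⟨v₀, hv₀⟩ := lift_list (fun p : {p // p ∈ L} => p.1) v fun b hb => ⟨⟨b, hv b hb⟩, rfl⟩
    subst hu₀ hv₀
    simp only [Bool.or_eq_true, Bool.not_eq_true']
    by_cases h1 : tX ((u₀.map fun p : {p // p ∈ L} => p.1).flatMap Prod.fst)
        ((v₀.map fun p : {p // p ∈ L} => p.1).flatMap Prod.fst) = true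
    · right
      rw [tXs, val_flatMap, val_flatMap] at h1
      rw [tYs, val_flatMap, val_flatMap]
      simp only [List.map_map] at h1 ⊢
      exact h u₀ v₀ h1
    · left
      simpa using h1
  · intro h
    refine hMAIN H G {p // p ∈ L} s g B K hB2 hB3 hBK ?_
    intro u v hu hv huv
    rw [List.all_eq_true] at h
    have h1 := h (u.map fun p : {p // p ∈ L} => p.1)
      ((hWORDS.1 _ _ _ _).2 ⟨by simpa using hu, by
        intro p hp
        obtain ⟨q, hq, rfl⟩ := List.mem_map.1 hp
        exact q.2⟩)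
    rw [List.all_eq_true] at h1
    have h2 := h1 (v.map fun p : {p // p ∈ L} => p.1)
      ((hWORDS.1 _ _ _ _).2 ⟨by simpa using hv, by
        intro p hp
        obtain ⟨q, hq, rfl⟩ := List.mem_map.1 hp
        exact q.2⟩)
    simp only [Bool.or_eq_true, Bool.not_eq_true'] at h2
    have h3 : tX ((u.map fun p : {p // p ∈ L} => p.1).flatMap Prod.fst)
        ((v.map fun p : {p // p ∈ L} => p.1).flatMap Prod.fst) = true := by
      rw [tXs, val_flatMap, val_flatMap]
      simp only [List.map_map]
      exact huv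
    have h4 := h2.resolve_left (by rw [h3]; simp)
    rw [tYs, val_flatMap, val_flatMap] at h4
    simp only [List.map_map] at h4
    exact h4

end Pool.Agent.Q264.HM
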